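import Pool.Agent.H6.HF.GrigMain

set_option autoImplicit false

namespace Pool.Agent.Results.MP_c01cc4_lc.ShiftUniversal

open Pool.Agent.H6.HF

/-- For the Grigorchuk group `G` (generated by `a, b, c, d` as in the problem) the following are equivalent:
every Borel action of `G` on a standard Borel space has a hyperfinite orbit relation (Q1); the single shift
action of `G` on `{0,1}^G` has a hyperfinite orbit relation; every Borel action of every group `Γ` having a
finite-index subgroup that embeds in a power `G^n` has a hyperfinite orbit relation. -/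
theorem result :
    ∀ a b c d : Equiv.Perm (ℕ → Bool),
    (∀ x : ℕ → Bool, a x = Function.update x 0 (!(x 0))) →
    (∀ x : ℕ → Bool, b x 0 = x 0 ∧
        (x 0 = false → (fun m => b x (m + 1)) = a (fun m => x (m + 1))) ∧
        (x 0 = true → (fun m => b x (m + 1)) = c (fun m => x (m + 1)))) →
    (∀ x : ℕ → Bool, c x 0 = x 0 ∧
        (x 0 = false → (fun m => c x (m + 1)) = a (fun m => x (m + 1))) ∧
        (x 0 = true → (fun m => c x (m + 1)) = d (fun m => x (m + 1)))) →
    (∀ x : ℕ → Bool, d x 0 = x 0 ∧
        (x 0 = false → (fun m => d x (m + 1)) = (fun m => x (m + 1))) ∧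
        (x 0 = true → (fun m => d x (m + 1)) = b (fun m => x (m + 1)))) →
    List.TFAE [
      AllHyp ↥(Subgroup.closure ({a, b, c, d} : Set (Equiv.Perm (ℕ → Bool)))),
      HypOrb (shiftAct ↥(Subgroup.closure ({a, b, c, d} : Set (Equiv.Perm (ℕ → Bool))))),
      ∀ (Γ : Type) [Group Γ],
        (∃ (n : ℕ) (N : Subgroup Γ)
          (f : N →* (Fin n → ↥(Subgroup.closure ({a, b, c, d} : Set (Equiv.Perm (ℕ → Bool)))))),
            N.FiniteIndex ∧ Function.Injective f) → AllHyp Γ] := by
  intro a b c d ha hb hc hd
  have hb' : b = pr a c := eq_pr b a c hb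
  have hc' : c = pr a d := eq_pr c a d hc
  have hd' : d = pr 1 b := eq_pr d 1 b hd
  have : Countable ↥(Subgroup.closure ({a, b, c, d} : Set (Equiv.Perm (ℕ → Bool)))) :=
    countable_closure _ (Set.toFinite _)
  obtain ⟨hinf, hemb⟩ := grig_vemb a b c d ha hb' hc' hd'
  exact tfae_general _ hemb

end Pool.Agent.Results.MP_c01cc4_lc.ShiftUniversal
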